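import Pool.Agent.Helper27.EM.Sheet

/-!
Project EM, row LIM: the number.
-/

set_option autoImplicit false

namespace Pool.Agent.Helper27.EM

open Finset

/-- one step -/
theorem next_step {n w : ℕ} (hn : 1000000 ≤ n)
    (hBAS : (∀ x, 1 ≤ rr n x ∧ rr n x < ((n : ℝ) + 2) / (n + 1)) ∧
      (∀ x, 1 ≤ dn n x ∧ n ^ x ≤ dn n x ∧ dn n x ≤ (n + 1) ^ (8 * x + 2)))
    (hS : ∀ (h X : ℕ) (s : ℝ), 1 ≤ h →
      1 ≤ s → s + 1 / ((n : ℝ) + 1) ^ (5 * h) ≤ ((n : ℝ) + 2) / (n + 1) →
      ∃ x, X ≤ x ∧ s < rr n x ∧ rr n x < s + 1 / ((n : ℝ) + 1) ^ (5 * h) ∧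
        ∀ (p : ℤ) (q : ℕ), (n + 1) ^ h ≤ q → q ^ (w + 1) ≤ dn n x ^ 2 →
          2 / (q : ℝ) ^ w ≤ |rr n x - p / q|) (x : ℕ) (hx : 2 ≤ x) :
    ∃ x', x < x' ∧ rr n x + 1 / (8 * (dn n x : ℝ) ^ 2) < rr n x' ∧
      rr n x' < rr n x + 1 / (4 * (dn n x : ℝ) ^ 2) ∧
      ∀ (p : ℤ) (q : ℕ), dn n x ≤ q → q ^ (w + 1) ≤ dn n x' ^ 2 →
        2 / (q : ℝ) ^ w ≤ |rr n x' - p / q| := by
  obtain ⟨R, hR⟩ : ∃ R, R = dn n x := ⟨_, rfl⟩
  rw [← hR]
  have hR1 : n + 1 ≤ R := by
    have h1 : n ^ 2 ≤ n ^ x := Nat.pow_le_pow_right (by omega) hx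
    have h2 := (hBAS.2 x).2.1
    rw [← hR] at h2
    nlinarith
  have hR0 : (0 : ℝ) < R := by
    have : 0 < R := by omega
    exact_mod_cast this
  have hlog1 : (n + 1) ^ Nat.log (n + 1) R ≤ R := Nat.pow_log_le_self _ (by omega)
  have hlog2 : R < (n + 1) ^ (Nat.log (n + 1) R + 1) := Nat.lt_pow_succ_log_self (by omega) _
  have hlog3 : 1 ≤ Nat.log (n + 1) R := Nat.log_pos (by omega) hR1
  obtain ⟨h, hh⟩ : ∃ h, h = Nat.log (n + 1) R := ⟨_, rfl⟩
  rw [← hh] at hlog1 hlog2 hlog3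
  have h8 : 8 * R ^ 2 ≤ (n + 1) ^ (5 * h) := by
    calc 8 * R ^ 2 ≤ (n + 1) * ((n + 1) ^ (h + 1)) ^ 2 :=
          Nat.mul_le_mul (by omega) (Nat.pow_le_pow_left hlog2.le _)
      _ = (n + 1) ^ (2 * h + 3) := by ring
      _ ≤ (n + 1) ^ (5 * h) := Nat.pow_le_pow_right (by omega) (by omega)
  have h8R : 1 / ((n : ℝ) + 1) ^ (5 * h) ≤ 1 / (8 * (R : ℝ) ^ 2) := by
    refine one_div_le_one_div_of_le (by positivity) ?_
    exact_mod_cast h8
  have hv : rr n x + 1 / (4 * (R : ℝ) ^ 2) ≤ ((n : ℝ) + 2) / (n + 1) := by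
    have h1 := (hBAS.1 x).2
    have hn1 : (0 : ℝ) < (n : ℝ) + 1 := by positivity
    have h2 : rr n x = (nm n x : ℝ) / R := by rw [hR]; rfl
    rw [h2] at h1 ⊢
    rw [div_lt_div_iff₀ hR0 hn1] at h1
    have h3 : nm n x * (n + 1) < (n + 2) * R := by exact_mod_cast h1
    have h4 : nm n x * (n + 1) + 1 ≤ (n + 2) * R := h3
    have h5 : (nm n x : ℝ) * (n + 1) + 1 ≤ (n + 2) * R := by exact_mod_cast h4
    have h6 : 1 / (4 * (R : ℝ) ^ 2) ≤ 1 / ((n + 1) * R) := by
      refine one_div_le_one_div_of_le (by positivity) ?_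
      have h7 : (n + 1) * R ≤ 4 * R ^ 2 := by nlinarith
      exact_mod_cast h7
    have h7 : (nm n x : ℝ) / R + 1 / ((n + 1) * R) ≤ ((n : ℝ) + 2) / (n + 1) := by
      rw [div_add_div _ _ hR0.ne' (by positivity), div_le_div_iff₀ (by positivity) hn1]
      have h9 : 0 < ((n : ℝ) + 1) * R := by positivity
      nlinarith [mul_le_mul_of_nonneg_left h5 h9.le]
    linarith
  have hs1 : 1 ≤ rr n x + 1 / (8 * (R : ℝ) ^ 2) := by
    have h1 := (hBAS.1 x).1
    have h2 : 0 ≤ 1 / (8 * (R : ℝ) ^ 2) := by positivity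
    linarith
  have h48 : 1 / (8 * (R : ℝ) ^ 2) + 1 / (8 * (R : ℝ) ^ 2) = 1 / (4 * (R : ℝ) ^ 2) := by
    field_simp
    norm_num
  obtain ⟨x', h1, h2, h3, h4⟩ := hS h (x + 1) (rr n x + 1 / (8 * (R : ℝ) ^ 2)) hlog3 hs1
    (by linarith)
  refine ⟨x', by omega, h2, by linarith, ?_⟩
  intro p q hq1 hq2
  exact h4 p q (hlog1.trans hq1) hq2

theorem LIM (hSTEP : ST_STEP) (hBAS : ST_BAS) : ST_LIM := by
  intro n hn
  have hn' : 1000000 ≤ n := by simpa using hn
  obtain ⟨w, hw, hS⟩ := hSTEP n hn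
  obtain ⟨b1, -, -, -, b5, b6⟩ := hBAS n (by omega)
  have hnext := next_step hn' ⟨b1, b5⟩ hS
  choose! g hg1 hg2 hg3 hg4 using hnext
  obtain ⟨xs, hxs0, hxsS⟩ : ∃ xs : ℕ → ℕ, xs 0 = 2 ∧ ∀ k, xs (k + 1) = g (xs k) :=
    ⟨fun k => Nat.rec 2 (fun _ y => g y) k, rfl, fun _ => rfl⟩
  have h2 : ∀ k, 2 ≤ xs k := by
    intro k
    induction k with
    | zero => rw [hxs0]
    | succ k ih =>
      rw [hxsS]
      exact ih.trans (hg1 _ ih).le
  have hmono : StrictMono xs := strictMono_nat_of_lt_succ fun k => by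
    rw [hxsS]
    exact hg1 _ (h2 k)
  set R : ℕ → ℝ := fun k => (dn n (xs k) : ℝ) with hR
  set r : ℕ → ℝ := fun k => rr n (xs k) with hr
  have hR1 : ∀ k, 1 ≤ R k := fun k => by
    simp only [hR]
    exact_mod_cast (b5 (xs k)).1
  have hR0 : ∀ k, 0 < R k := fun k => zero_lt_one.trans_le (hR1 k)
  have hRS : ∀ k, 4 * R k ≤ R (k + 1) := by
    intro k
    have h3 := b6 (xs k) (xs (k + 1)) (hmono (Nat.lt_succ_self k))
    have h4 : 4 * dn n (xs k) ≤ dn n (xs (k + 1)) := by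
      refine le_trans (Nat.mul_le_mul_right _ (by omega)) h3
    simp only [hR]
    exact_mod_cast h4
  have hr1 : ∀ k, r k + 1 / (8 * R k ^ 2) < r (k + 1) := by
    intro k
    have := hg2 (xs k) (h2 k)
    rw [← hxsS] at this
    exact this
  have hr2 : ∀ k, r (k + 1) < r k + 1 / (4 * R k ^ 2) := by
    intro k
    have := hg3 (xs k) (h2 k)
    rw [← hxsS] at this
    exact this
  have hr3 : ∀ k (p : ℤ) (q : ℕ), dn n (xs k) ≤ q → q ^ (w + 1) ≤ dn n (xs (k + 1)) ^ 2 →
      2 / (q : ℝ) ^ w ≤ |r (k + 1) - p / q| := by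
    intro k p q hq1 hq2
    have := hg4 (xs k) (h2 k) p q hq1
    rw [← hxsS] at this
    exact this hq2
  have hrm : StrictMono r := strictMono_nat_of_lt_succ fun k => by
    have h3 := hr1 k
    have h4 : 0 < 1 / (8 * R k ^ 2) := by have := hR0 k; positivity
    linarith
  have hum : Antitone fun k => r k + 1 / (3 * R k ^ 2) := by
    refine antitone_nat_of_succ_le fun k => ?_
    have h3 := hr2 k
    have h4 := hR0 k
    have h5 := hRS k
    have h6 : 1 / (3 * R (k + 1) ^ 2) ≤ 1 / (48 * R k ^ 2) := by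
      refine one_div_le_one_div_of_le (by positivity) ?_
      nlinarith
    have h7 : 1 / (4 * R k ^ 2) + 1 / (48 * R k ^ 2) ≤ 1 / (3 * R k ^ 2) := by
      have e1 : 1 / (4 * R k ^ 2) = (1 / 4) * (1 / R k ^ 2) := by field_simp
      have e2 : 1 / (48 * R k ^ 2) = (1 / 48) * (1 / R k ^ 2) := by field_simp
      have e3 : 1 / (3 * R k ^ 2) = (1 / 3) * (1 / R k ^ 2) := by field_simp
      have e4 : 0 < 1 / R k ^ 2 := by positivity
      rw [e1, e2, e3]
      linarith
    change r (k + 1) + 1 / (3 * R (k + 1) ^ 2) ≤ r k + 1 / (3 * R k ^ 2)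
    linarith
  have hu0 : ∀ k, 0 < 1 / (3 * R k ^ 2) := fun k => by have := hR0 k; positivity
  have hru : ∀ m k, r m ≤ r k + 1 / (3 * R k ^ 2) := by
    intro m k
    rcases le_total m k with h | h
    · have := hrm.monotone h
      have := hu0 k
      linarith
    · have h3 := hum h
      have h4 := hu0 m
      simp only at h3
      linarith
  have hbdd : BddAbove (Set.range r) := ⟨r 0 + 1 / (3 * R 0 ^ 2), by
    rintro _ ⟨m, rfl⟩
    exact hru m 0⟩
  obtain ⟨ξ, hξ⟩ : ∃ ξ, ξ = ⨆ k, r k := ⟨_, rfl⟩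
  have hle : ∀ k, r k ≤ ξ := fun k => by rw [hξ]; exact le_ciSup hbdd k
  have hge : ∀ k, ξ ≤ r k + 1 / (3 * R k ^ 2) := fun k => by
    rw [hξ]
    exact ciSup_le fun m => hru m k
  have hlow : ∀ k, 1 / (8 * R k ^ 2) ≤ ξ - r k := by
    intro k
    have := hr1 k
    have := hle (k + 1)
    linarith
  have hRk : ∀ k, k < dn n (xs k) := by
    intro k
    induction k with
    | zero => exact (b5 _).1
    | succ k ih =>
      have h3 := b6 (xs k) (xs (k + 1)) (hmono (Nat.lt_succ_self k))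
      have h4 : 2 * dn n (xs k) ≤ dn n (xs (k + 1)) :=
        le_trans (Nat.mul_le_mul_right _ (by omega)) h3
      omega
  refine ⟨ξ, xs, hmono, ?_, w + 4, dn n (xs 0) ^ 2 + 2, ?_⟩
  · intro k
    have h3 := hr1 k
    have h4 := hle (k + 1)
    have h5 := hR0 k
    have h6 : 0 < 1 / (8 * R k ^ 2) := by positivity
    refine ⟨by change r k < ξ; linarith, ?_⟩
    have h7 := hge k
    have h8 : 1 / (3 * R k ^ 2) < 1 / (2 * R k ^ 2) := by
      refine one_div_lt_one_div_of_lt (by positivity) ?_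
      nlinarith [pow_pos h5 2]
    change ξ - r k < 1 / (2 * R k ^ 2)
    linarith
  · intro p q hq
    have hq2 : 2 ≤ q := by omega
    have hqR : (2 : ℝ) ≤ q := by exact_mod_cast hq2
    have hq0 : (0 : ℝ) < q := by linarith
    have hex : ∃ m, q ^ (w + 1) ≤ dn n (xs m) ^ 2 := by
      refine ⟨q ^ (w + 1), ?_⟩
      have h3 := hRk (q ^ (w + 1))
      nlinarith [Nat.zero_le (q ^ (w + 1))]
    classical
    obtain ⟨m, hm, hmin⟩ : ∃ m, q ^ (w + 1) ≤ dn n (xs m) ^ 2 ∧
        ∀ m' < m, ¬ q ^ (w + 1) ≤ dn n (xs m') ^ 2 :=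
      ⟨Nat.find hex, Nat.find_spec hex, fun m' hm' => Nat.find_min hex hm'⟩
    have hm0 : m ≠ 0 := by
      rintro rfl
      have h3 : q ≤ q ^ (w + 1) := Nat.le_self_pow (by omega) q
      omega
    obtain ⟨k, rfl⟩ := Nat.exists_eq_succ_of_ne_zero hm0
    have hk : dn n (xs k) ^ 2 < q ^ (w + 1) := by
      have := hmin k (Nat.lt_succ_self k)
      omega
    have hkR : R k ^ 2 < (q : ℝ) ^ (w + 1) := by
      simp only [hR]
      exact_mod_cast hk
    have hq1 : (1 : ℝ) ≤ q := by linarith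
    rcases le_or_gt q (dn n (xs k)) with hqk | hqk
    · have hqkR : (q : ℝ) ≤ R k := by
        simp only [hR]
        exact_mod_cast hqk
      have hRR := hR1 k
      have hRle : R k ≤ (q : ℝ) ^ (w + 1) := by nlinarith
      have hq8 : 8 * (q : ℝ) ^ (w + 1) ≤ (q : ℝ) ^ (w + 4) := by
        have e1 : (q : ℝ) ^ (w + 4) = (q : ℝ) ^ 3 * (q : ℝ) ^ (w + 1) := by ring
        have e2 : (8 : ℝ) ≤ (q : ℝ) ^ 3 := by
          calc (8 : ℝ) = 2 ^ 3 := by norm_num
            _ ≤ (q : ℝ) ^ 3 := pow_le_pow_left₀ (by norm_num) hqR 3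
        rw [e1]
        exact mul_le_mul_of_nonneg_right e2 (by positivity)
      by_cases hpq : p * (dn n (xs k) : ℤ) = nm n (xs k) * q
      · have h3 : (p : ℝ) / q = r k := by
          have h4 : (p : ℝ) * R k = nm n (xs k) * q := by
            simp only [hR]
            exact_mod_cast hpq
          change (p : ℝ) / q = (nm n (xs k) : ℝ) / R k
          rw [div_eq_div_iff hq0.ne' (hR0 k).ne']
          exact h4
        rw [h3, abs_of_nonneg (by have := hle k; linarith)]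
        refine le_trans ?_ (hlow k)
        refine one_div_le_one_div_of_le (by have := hR0 k; positivity) ?_
        linarith
      · have h3 : 1 / (R k * q) ≤ |r k - p / q| := by
          have h4 : r k - (p : ℝ) / q = ((nm n (xs k) * q - p * dn n (xs k) : ℤ) : ℝ) /
              (R k * q) := by
            change (nm n (xs k) : ℝ) / R k - (p : ℝ) / q = _
            rw [div_sub_div _ _ (hR0 k).ne' hq0.ne']
            push_cast
            simp only [hR]
            ring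
          rw [h4, abs_div, abs_of_pos (by have := hR0 k; positivity : 0 < R k * q)]
          refine div_le_div_of_nonneg_right ?_ (by have := hR0 k; positivity)
          have h5 : (nm n (xs k) * q - p * dn n (xs k) : ℤ) ≠ 0 := by
            intro h6
            apply hpq
            linarith
          have h6 := Int.one_le_abs h5
          exact_mod_cast h6
        have h4 : |r k - p / q| ≤ |ξ - p / q| + (ξ - r k) := by
          have h5 : r k - (p : ℝ) / q = (ξ - p / q) - (ξ - r k) := by ring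
          rw [h5]
          refine (abs_sub _ _).trans ?_
          rw [abs_of_nonneg (by have := hle k; linarith : 0 ≤ ξ - r k)]
        have h5 := hge k
        have h6 : 1 / (3 * R k ^ 2) ≤ (1 / 3) * (1 / (R k * q)) := by
          have e1 : (1 / 3) * (1 / (R k * q)) = 1 / (3 * (R k * q)) := by field_simp
          rw [e1]
          refine one_div_le_one_div_of_le (by have := hR0 k; positivity) ?_
          nlinarith [hR0 k]
        have h7 : 1 / (q : ℝ) ^ (w + 4) ≤ (2 / 3) * (1 / (R k * q)) := by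
          have e1 : (2 / 3) * (1 / (R k * q)) = 1 / (3 / 2 * (R k * q)) := by field_simp
          rw [e1]
          refine one_div_le_one_div_of_le (by have := hR0 k; positivity) ?_
          have e2 : R k * q ≤ (q : ℝ) ^ (w + 1) * q := mul_le_mul_of_nonneg_right hRle hq0.le
          have e3 : (q : ℝ) ^ (w + 1) * q * 4 ≤ (q : ℝ) ^ (w + 4) := by
            have e4 : (q : ℝ) ^ (w + 4) = (q : ℝ) ^ (w + 1) * q * q ^ 2 := by ring
            rw [e4]
            exact mul_le_mul_of_nonneg_left (by nlinarith) (by positivity)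
          have e5 : 0 < (q : ℝ) ^ (w + 1) * q := by positivity
          linarith
        linarith
    · have h3 := hr3 k p q hqk.le hm
      have h4 : |r (k + 1) - p / q| ≤ |ξ - p / q| + (ξ - r (k + 1)) := by
        have h5 : r (k + 1) - (p : ℝ) / q = (ξ - p / q) - (ξ - r (k + 1)) := by ring
        rw [h5]
        refine (abs_sub _ _).trans ?_
        rw [abs_of_nonneg (by have := hle (k + 1); linarith : 0 ≤ ξ - r (k + 1))]
      have h5 := hge (k + 1)
      have h6 : 1 / (3 * R (k + 1) ^ 2) ≤ 1 / (q : ℝ) ^ w := by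
        refine one_div_le_one_div_of_le (by positivity) ?_
        have e1 : (q : ℝ) ^ (w + 1) ≤ R (k + 1) ^ 2 := by
          simp only [hR]
          exact_mod_cast hm
        have e2 : (q : ℝ) ^ w ≤ (q : ℝ) ^ (w + 1) := pow_le_pow_right₀ hq1 (by omega)
        have e3 : 0 ≤ R (k + 1) ^ 2 := by positivity
        linarith
      have h7 : 1 / (q : ℝ) ^ (w + 4) ≤ 1 / (q : ℝ) ^ w :=
        one_div_le_one_div_of_le (by positivity) (pow_le_pow_right₀ hq1 (by omega))
      have h8 : 2 / (q : ℝ) ^ w = 1 / (q : ℝ) ^ w + 1 / (q : ℝ) ^ w := by ring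
      linarith

end Pool.Agent.Helper27.EM
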