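import Pool.Agent.Helper27.EM.Sheet

/-!
Project EM, row STEP.
-/

set_option autoImplicit false

namespace Pool.Agent.Helper27.EM

open Finset

theorem sum_lt_of (K : ℕ) (hK : 0 < K) (f : ℕ → ℕ) (m : ℕ)
    (h : ∀ j < m, 2 ^ (j + 1) * f j ≤ K) : ∑ j ∈ range m, f j < K := by
  have key : ∀ m' ≤ m, 2 ^ m' * ∑ j ∈ range m', f j + K ≤ 2 ^ m' * K := by
    intro m' hm'
    induction m' with
    | zero => simp
    | succ k ih =>
      have h1 := ih (by omega)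
      have h2 := h k (by omega)
      rw [sum_range_succ, mul_add, pow_succ]
      rw [pow_succ] at h2
      nlinarith
  have h1 := key m le_rfl
  have h2 : 0 < 2 ^ m := by positivity
  by_contra hcon
  push Not at hcon
  have h3 : 2 ^ m * K ≤ 2 ^ m * ∑ j ∈ range m, f j := Nat.mul_le_mul_left _ hcon
  omega

theorem find_scale (b h q : ℕ) (h1 : b ^ h ≤ q) : ∀ K : ℕ, q < b ^ (16 * (h * 16 ^ K)) →
    ∃ j ≤ K, b ^ (h * 16 ^ j) ≤ q ∧ q < b ^ (16 * (h * 16 ^ j)) := by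
  intro K
  induction K with
  | zero =>
    intro hq
    exact ⟨0, le_rfl, by simpa using h1, by simpa using hq⟩
  | succ K ih =>
    intro hq
    by_cases h2 : q < b ^ (16 * (h * 16 ^ K))
    · obtain ⟨j, hj, hj2⟩ := ih h2
      exact ⟨j, by omega, hj2⟩
    · refine ⟨K + 1, le_rfl, ?_, hq⟩
      push Not at h2
      have h3 : h * 16 ^ (K + 1) = 16 * (h * 16 ^ K) := by ring
      rw [h3]
      exact h2

theorem gap_bound (C b h : ℕ) : (C * b ^ (5 * h)) ^ C ≤ 16 ^ (C * (C + 5 * b * h)) := by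
  have h1 : C ≤ 16 ^ C := (Nat.lt_pow_self (by norm_num)).le
  have h2 : b ≤ 16 ^ b := (Nat.lt_pow_self (by norm_num)).le
  have h3 : b ^ (5 * h) ≤ 16 ^ (5 * b * h) := by
    calc b ^ (5 * h) ≤ (16 ^ b) ^ (5 * h) := Nat.pow_le_pow_left h2 _
      _ = 16 ^ (5 * b * h) := by rw [← pow_mul]; ring_nf
  calc (C * b ^ (5 * h)) ^ C ≤ (16 ^ C * 16 ^ (5 * b * h)) ^ C :=
        Nat.pow_le_pow_left (Nat.mul_le_mul h1 h3) _
    _ = 16 ^ (C * (C + 5 * b * h)) := by rw [← pow_add, ← pow_mul]; ring_nf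

/-- the condition of CNT -/
theorem cnt_bound (C₁ C₂ b h j : ℕ) (hb : 528 ≤ b) (hh : 1 ≤ h) :
    4 * (C₂ * (528 * h * 16 ^ (C₁ * (C₁ + 5 * b * h)) *
      16 ^ (32 * b * (h * 16 ^ j) + j + 3))) ^ C₂ ≤
    b ^ (((C₂ + 6 + C₁ * C₁ + 5 * b * C₁ + 32 * b) * C₂ + 1) * (h * 16 ^ j)) := by
  set H : ℕ := h * 16 ^ j with hH
  have hH1 : 1 ≤ H := Nat.one_le_iff_ne_zero.2 (by positivity)
  have hhH : h ≤ H := Nat.le_mul_of_pos_right _ (by positivity)
  have hjH : j ≤ H := by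
    have h1 : j < 16 ^ j := Nat.lt_pow_self (by norm_num)
    have h2 : 16 ^ j ≤ H := Nat.le_mul_of_pos_left _ (by omega)
    omega
  have hb1 : 1 ≤ b := by omega
  have hb2 : 2 ≤ b := by omega
  have e1 : C₂ ≤ b ^ (C₂ * H) :=
    (Nat.lt_pow_self (by omega)).le.trans
      (Nat.pow_le_pow_right hb1 (Nat.le_mul_of_pos_right _ (by omega)))
  have e2 : 528 ≤ b ^ H := hb.trans (Nat.le_self_pow (by omega) b)
  have e3 : h ≤ b ^ H := (Nat.lt_pow_self (n := h) (by omega)).le.trans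
    (Nat.pow_le_pow_right hb1 hhH)
  have e4 : 16 ^ (C₁ * (C₁ + 5 * b * h)) ≤ b ^ ((C₁ * C₁ + 5 * b * C₁) * H) := by
    refine (Nat.pow_le_pow_left (by omega) _).trans (Nat.pow_le_pow_right hb1 ?_)
    have h1 : C₁ * C₁ ≤ C₁ * C₁ * H := Nat.le_mul_of_pos_right _ (by omega)
    have h2 : 5 * b * C₁ * h ≤ 5 * b * C₁ * H := Nat.mul_le_mul_left _ hhH
    calc C₁ * (C₁ + 5 * b * h) = C₁ * C₁ + 5 * b * C₁ * h := by ring
      _ ≤ C₁ * C₁ * H + 5 * b * C₁ * H := Nat.add_le_add h1 h2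
      _ = _ := by ring
  have e5 : 16 ^ (32 * b * H + j + 3) ≤ b ^ ((32 * b + 4) * H) := by
    refine (Nat.pow_le_pow_left (by omega) _).trans (Nat.pow_le_pow_right hb1 ?_)
    nlinarith
  have e6 : C₂ * (528 * h * 16 ^ (C₁ * (C₁ + 5 * b * h)) * 16 ^ (32 * b * H + j + 3)) ≤
      b ^ ((C₂ + 6 + C₁ * C₁ + 5 * b * C₁ + 32 * b) * H) := by
    calc _ ≤ b ^ (C₂ * H) * (b ^ H * b ^ H * b ^ ((C₁ * C₁ + 5 * b * C₁) * H) *
          b ^ ((32 * b + 4) * H)) :=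
          Nat.mul_le_mul e1 (Nat.mul_le_mul (Nat.mul_le_mul (Nat.mul_le_mul e2 e3) e4) e5)
      _ = b ^ ((C₂ + 6 + C₁ * C₁ + 5 * b * C₁ + 32 * b) * H) := by
          rw [← pow_add, ← pow_add, ← pow_add, ← pow_add]
          ring_nf
  calc _ ≤ b ^ H * (b ^ ((C₂ + 6 + C₁ * C₁ + 5 * b * C₁ + 32 * b) * H)) ^ C₂ :=
        Nat.mul_le_mul ((by omega : 4 ≤ b).trans (Nat.le_self_pow (by omega) b))
          (Nat.pow_le_pow_left e6 _)
    _ = _ := by
        rw [← pow_mul, ← pow_add]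
        ring_nf

theorem STEP (hDENS : ST_DENS) (hCLUST : ST_CLUST) (hCNT : ST_CNT) (hTREE : ST_TREE)
    (hBAS : ST_BAS) : ST_STEP := by
  intro n hn
  have hn' : 1000000 ≤ n := by simpa using hn
  obtain ⟨C₁, hC₁, hD⟩ := hDENS n hn
  obtain ⟨C₂, hC₂, hN⟩ := hCNT n hn
  obtain ⟨-, -, -, -, hdn, -⟩ := hBAS n (by omega)
  obtain ⟨b, hb⟩ : ∃ b, b = n + 1 := ⟨_, rfl⟩
  have hb5 : 528 ≤ b := by omega
  have hbR : ((n : ℝ) + 1) = (b : ℝ) := by rw [hb]; push_cast; ring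
  obtain ⟨w, hw⟩ : ∃ w, w = (C₂ + 6 + C₁ * C₁ + 5 * b * C₁ + 32 * b) * C₂ + 5000 := ⟨_, rfl⟩
  refine ⟨w, by omega, ?_⟩
  intro h X s hh hs hs2
  set j₁ : ℕ := C₁ * (C₁ + 5 * b * h) with hj₁
  set M : ℕ := 528 * h * 16 ^ j₁ with hM
  have hM1 : 1 ≤ M := Nat.one_le_iff_ne_zero.2 (by positivity)
  set t : ℕ → ℕ := fun j => 32 * b * (h * 16 ^ j) + j + 3 with ht
  have htm : ∀ j ≤ j₁, t j ≤ t j₁ := by
    intro j hj
    simp only [ht]
    have : h * 16 ^ j ≤ h * 16 ^ j₁ :=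
      Nat.mul_le_mul_left _ (Nat.pow_le_pow_right (by norm_num) hj)
    have := Nat.mul_le_mul_left (32 * b) this
    omega
  set J : ℕ := t j₁ + X with hJ
  have hX : X < M * 16 ^ J := by
    have h1 : J < 16 ^ J := Nat.lt_pow_self (by norm_num)
    have h2 : 16 ^ J ≤ M * 16 ^ J := Nat.le_mul_of_pos_left _ hM1
    omega
  have h16 : ∀ j, 1 ≤ h * 16 ^ j := fun j => Nat.one_le_iff_ne_zero.2 (by positivity)
  obtain ⟨x, hxT, hx1, hx2, hxE, hxF⟩ := hTREE M J (j₁ + 1)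
    {x | s < rr n x ∧ rr n x < s + 1 / ((n : ℝ) + 1) ^ (5 * h)}
    (fun i => {x | Bad n w (h * 16 ^ (j₁ + i)) x}) (fun j => {x | Bad n w (h * 16 ^ j) x})
    t (fun j => 3 * b ^ (32 * (h * 16 ^ j))) hM1
    (by
      intro X'
      have h1 : 1 ≤ b ^ (5 * h) := Nat.one_le_pow _ _ (by omega)
      obtain ⟨x, h2, h3, h4, h5⟩ := hD (b ^ (5 * h)) X' s h1 hs (by
        rw [hbR] at hs2
        push_cast
        rw [hbR]
        exact hs2)
      refine ⟨x, ⟨h4, ?_⟩, h2, h3.trans_le ?_⟩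
      · rw [hbR]
        push_cast at h5
        exact h5
      · have h6 := gap_bound C₁ b h
        have h7 : 16 ^ j₁ ≤ M := Nat.le_mul_of_pos_left _ (by positivity)
        have h8 := h6.trans h7
        omega)
    (by
      intro i hi1 hi2 x hx x' hx' hlt hlt2
      obtain ⟨i', rfl⟩ : ∃ i', i = i' + 1 := ⟨i - 1, by omega⟩
      have h1 : M * 16 ^ (i' + 1) = 528 * (h * 16 ^ (j₁ + (i' + 1))) := by
        rw [hM]
        ring
      have h2 := hCLUST n 528 w (h * 16 ^ (j₁ + (i' + 1))) (by omega) (h16 _) (by omega) x x' hlt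
        (by omega) hx hx'
      have h3 : 33 * (h * 16 ^ (j₁ + (i' + 1))) = M * 16 ^ i' := by
        rw [hM]
        ring
      rw [Nat.add_sub_cancel]
      omega)
    (by
      intro j hj
      have := htm j (by omega)
      omega)
    (by
      intro j hj s' U hU
      have h1 : 4 * (C₂ * (M * 16 ^ t j)) ^ C₂ ≤ (n + 1) ^ (w * (h * 16 ^ j)) := by
        have h2 := cnt_bound C₁ C₂ b h j hb5 hh
        rw [← hb]
        refine h2.trans (Nat.pow_le_pow_right (by omega) (Nat.mul_le_mul_right _ ?_))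
        omega
      have h2 := hN w (h * 16 ^ j) (M * 16 ^ t j) s' U (by omega) (h16 j)
        (Nat.one_le_iff_ne_zero.2 (by positivity)) h1
        (fun x hx => ⟨(hU x hx).2.2.1, (hU x hx).2.2.2, (hU x hx).2.1⟩)
      rw [← hb] at h2
      exact h2)
    (by
      refine sum_lt_of (14 ^ J) (by positivity) _ _ fun j hj => ?_
      have h1 := htm j (by omega)
      have h2 : 2 ^ (j + 1) * (3 * b ^ (32 * (h * 16 ^ j))) ≤ 14 ^ t j := by
        have e1 : b ≤ 14 ^ b := (Nat.lt_pow_self (by norm_num)).le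
        have e2 : b ^ (32 * (h * 16 ^ j)) ≤ 14 ^ (32 * b * (h * 16 ^ j)) := by
          calc b ^ (32 * (h * 16 ^ j)) ≤ (14 ^ b) ^ (32 * (h * 16 ^ j)) :=
                Nat.pow_le_pow_left e1 _
            _ = 14 ^ (32 * b * (h * 16 ^ j)) := by rw [← pow_mul]; ring_nf
        have e3 : 2 ^ j ≤ 14 ^ j := Nat.pow_le_pow_left (by norm_num) _
        calc 2 ^ (j + 1) * (3 * b ^ (32 * (h * 16 ^ j)))
            = 2 ^ j * 6 * b ^ (32 * (h * 16 ^ j)) := by ring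
          _ ≤ 14 ^ j * 14 ^ 3 * 14 ^ (32 * b * (h * 16 ^ j)) :=
              Nat.mul_le_mul (Nat.mul_le_mul e3 (by norm_num)) e2
          _ = 14 ^ t j := by
              rw [← pow_add, ← pow_add]
              congr 1
              simp only [ht]
              ring
      calc 2 ^ (j + 1) * (3 * b ^ (32 * (h * 16 ^ j)) * 14 ^ (J - t j))
          = 2 ^ (j + 1) * (3 * b ^ (32 * (h * 16 ^ j))) * 14 ^ (J - t j) := by ring
        _ ≤ 14 ^ t j * 14 ^ (J - t j) := Nat.mul_le_mul_right _ h2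
        _ = 14 ^ J := by rw [← pow_add]; congr 1; omega)
    X
  refine ⟨x, hx1, hxT.1, hxT.2, ?_⟩
  intro p q hq1 hq2
  by_contra hlt
  push Not at hlt
  have hq0 : 0 < q := lt_of_lt_of_le (by positivity) hq1
  have hqb : q < b ^ (16 * (h * 16 ^ (j₁ + J))) := by
    by_contra hcon
    push Not at hcon
    have h1 := (hdn x).2.2
    rw [← hb] at h1
    have h2 : (b ^ (16 * (h * 16 ^ (j₁ + J)))) ^ (w + 1) ≤ (b ^ (8 * x + 2)) ^ 2 :=
      (Nat.pow_le_pow_left hcon _).trans (hq2.trans (Nat.pow_le_pow_left h1 _))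
    rw [← pow_mul, ← pow_mul] at h2
    have h3 := (Nat.pow_le_pow_iff_right (by omega : 1 < b)).1 h2
    have h4 : M * 16 ^ J = 528 * (h * 16 ^ (j₁ + J)) := by
      rw [hM]
      ring
    have h5 : 16 * (h * 16 ^ (j₁ + J)) * (w + 1) = (16 * (w + 1)) * (h * 16 ^ (j₁ + J)) := by ring
    have h6 : (16 * 1056) * (h * 16 ^ (j₁ + J)) ≤ (16 * (w + 1)) * (h * 16 ^ (j₁ + J)) :=
      Nat.mul_le_mul_right _ (by omega)
    omega
  obtain ⟨j, hj, hj1, hj2⟩ := find_scale b h q (by rw [hb]; exact hq1) _ hqb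
  have hbad : Bad n w (h * 16 ^ j) x := by
    refine ⟨p, q, by rw [← hb]; exact hj1, by rw [← hb]; exact hj2, hlt.trans_le ?_⟩
    rw [hbR]
    have h1 : ((b : ℝ)) ^ (w * (h * 16 ^ j)) ≤ (q : ℝ) ^ w := by
      have h2 : (b ^ (h * 16 ^ j)) ^ w ≤ q ^ w := Nat.pow_le_pow_left hj1 _
      rw [← pow_mul, mul_comm] at h2
      exact_mod_cast h2
    have h3 : (0 : ℝ) < (b : ℝ) ^ (w * (h * 16 ^ j)) := by
      have : 0 < b := by omega
      positivity
    exact div_le_div_of_nonneg_left (by norm_num) h3 h1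
  rcases le_or_gt j j₁ with hle | hgt
  · exact hxF j (by omega) hbad
  · have h1 := hxE (j - j₁) (by omega) (by omega)
    apply h1
    change Bad n w (h * 16 ^ (j₁ + (j - j₁))) x
    rwa [show j₁ + (j - j₁) = j by omega]

end Pool.Agent.Helper27.EM
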