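import Mathlib

/-!
Project EM (MP_9b3484_nt, Erdős - Mahler): there is a number `ξ` which is not a Liouville number and
has infinitely many convergents whose numerators and denominators have only prime factors `≤ B`.

Fix `n ≥ 10 ^ 6`, `b = n + 1`. `rr n x = ((n + 1) / n) ^ x * ((n + 2) / (n + 1)) ^ (- Y n x)` is in
`[1, (n + 2) / (n + 1))`, in lowest terms `nm n x / dn n x`. `ξ` is the limit of `rr n (x k)`, where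
`rr n (x (k + 1)) - rr n (x k)` is between `1 / (8 R ^ 2)` and `1 / (4 R ^ 2)`, `R = dn n (x k)`, and
`rr n (x (k + 1))` has no approximations `p / q` better than `2 / q ^ w`,
`R ≤ q ≤ dn n (x (k + 1)) ^ (2 / (w + 1))` (STEP). For the other `q` the trivial bound works.
-/

set_option autoImplicit false

open Filter Finset

namespace Pool.Agent.Helper27.EM

/-! ## 0. Definitions -/

/-- the rotation number -/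
noncomputable def al (n : ℕ) : ℝ :=
  Real.log (((n : ℝ) + 1) / n) / Real.log (((n : ℝ) + 2) / (n + 1))

/-- the second exponent -/
noncomputable def Y (n x : ℕ) : ℕ := ⌊(x : ℝ) * al n⌋₊

/-- the numerator -/
noncomputable def nm (n x : ℕ) : ℕ := (n + 1) ^ (x + Y n x)

/-- the denominator -/
noncomputable def dn (n x : ℕ) : ℕ := n ^ x * (n + 2) ^ Y n x

/-- the fraction -/
noncomputable def rr (n x : ℕ) : ℝ := (nm n x : ℝ) / dn n x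

/-- (BAS) basic facts. `1 ≤ al n < 2` as `(1 + 1 / (n + 1)) ^ 2 > 1 + 1 / n` -/
def ST_BAS : Prop := ∀ n : ℕ, 2 ≤ n →
  (∀ x, 1 ≤ rr n x ∧ rr n x < ((n : ℝ) + 2) / (n + 1)) ∧
  (∀ x x', x ≤ x' → Y n x ≤ Y n x' ∧ Y n x' ≤ Y n x + 2 * (x' - x) + 1) ∧
  (∀ x, Real.log (rr n x) = x * Real.log (((n : ℝ) + 1) / n) -
    Y n x * Real.log (((n : ℝ) + 2) / (n + 1))) ∧
  (∀ x, Nat.Coprime (nm n x) (dn n x)) ∧ (∀ x, 1 ≤ dn n x ∧ n ^ x ≤ dn n x ∧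
    dn n x ≤ (n + 1) ^ (8 * x + 2)) ∧
  (∀ x x', x < x' → n * dn n x ≤ dn n x')

/-! ## 1. Linear forms -/

/-- (INTA) `P ^ k / x ^ (k + 1)` is a Laurent polynomial; the coefficient of `x ^ j` in `P ^ k` is
divisible by `s ^ (k - j)` if `P s = 0`, `j < k` -/
def ST_INTA : Prop := ∀ (P : Polynomial ℤ) (k s t : ℕ), P.natDegree ≤ 3 → 1 ≤ s → s ≤ t →
  P.eval (s : ℤ) = 0 → P.eval (t : ℤ) = 0 → ∃ N : ℤ,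
    (Nat.lcmUpto (2 * k) : ℝ) *
      ∫ x in (s : ℝ)..t, (P.map (Int.castRingHom ℝ)).eval x ^ k / x ^ (k + 1) =
    Nat.lcmUpto (2 * k) * ((P ^ k).coeff k : ℝ) * Real.log ((t : ℝ) / s) + N

/-- (INTB) (INTA) with `P = (X - n) (X - (n + 1)) (X - (n + 2))`, `k` odd: `P > 0` on
`(n, n + 1)`, `P < 0` on `(n + 1, n + 2)`, `|P| ≤ 1 / 2` on `[n, n + 2]`, `|P| ≥ 1 / 16` on
`[n + 1 / 4, n + 3 / 4]` and on `[n + 5 / 4, n + 7 / 4]`; coefficients of `P ^ k`: up to signs those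
of `((X + n) (X + n + 1) (X + n + 2)) ^ k`, at most the value at `1` -/
def ST_INTB : Prop := ∀ n k : ℕ, 1 ≤ n → Odd k → ∃ (A N₁ N₂ : ℤ) (I₁ I₂ : ℝ),
  (A : ℝ) * Real.log (((n : ℝ) + 1) / n) = N₁ + I₁ ∧
  (A : ℝ) * Real.log (((n : ℝ) + 2) / (n + 1)) = N₂ - I₂ ∧
  (1 / (32 * ((n : ℝ) + 2) ^ 2)) ^ k ≤ I₁ ∧ (1 / (32 * ((n : ℝ) + 2) ^ 2)) ^ k ≤ I₂ ∧
  I₁ ≤ Nat.lcmUpto (2 * k) * (1 / (n : ℝ)) ^ k ∧
  I₂ ≤ Nat.lcmUpto (2 * k) * (1 / (n : ℝ)) ^ k ∧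
  |(A : ℝ)| ≤ Nat.lcmUpto (2 * k) * (((n : ℝ) + 3) ^ 3) ^ k

/-- (MEAS) (INTB, `Chebyshev.psi_eq_log_lcmUpto`, `Chebyshev.psi_le_const_mul_self`): with
`Λ = x log u - y log v`, `A Λ = (x N₁ - y N₂) + (x I₁ + y I₂)`, `k = 2 * Nat.log 2 (x + y) + 1`, so
`0 < x I₁ + y I₂ ≤ 1 / 2`; if `x N₁ - y N₂ ≠ 0` then `|A Λ| ≥ 1 / 2`, otherwise
`|A Λ| = x I₁ + y I₂` -/
def ST_MEAS : Prop := ∀ n : ℕ, 10 ^ 6 ≤ n → ∃ C : ℕ, 1 ≤ C ∧ ∀ x y : ℕ, 1 ≤ x + y →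
  1 / ((C : ℝ) * (x + y)) ^ C ≤
    |x * Real.log (((n : ℝ) + 1) / n) - y * Real.log (((n : ℝ) + 2) / (n + 1))|

/-- (MULT) (MEAS, BAS; `log` is `1`-Lipschitz on `[1, ∞)`) -/
def ST_MULT : Prop := ∀ n : ℕ, 10 ^ 6 ≤ n → ∃ C : ℕ, 1 ≤ C ∧ ∀ x x' : ℕ, x < x' →
  1 / ((C : ℝ) * (x' - x)) ^ C ≤ |rr n x' - rr n x|

/-- (DENS) (MEAS, BAS) `rr n x = v ^ {x al}`, the target has length `≥ 1 / (2 G)` in terms of the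
fractional part `{x al}`. Dirichlet (`Real.exists_int_int_abs_mul_sub_le`): `1 ≤ k ≤ 4 G`,
`θ = k al - m`, `|θ| < 1 / (4 G)`, and `|θ| ≥ (C k) ^ (- C)` by MEAS; `x = X + i k`,
`i ≤ 1 / |θ| + 1` -/
def ST_DENS : Prop := ∀ n : ℕ, 10 ^ 6 ≤ n → ∃ C : ℕ, 1 ≤ C ∧ ∀ (G X : ℕ) (s : ℝ), 1 ≤ G →
  1 ≤ s → s + 1 / G ≤ ((n : ℝ) + 2) / (n + 1) →
  ∃ x, X ≤ x ∧ x < X + (C * G) ^ C ∧ s < rr n x ∧ rr n x < s + 1 / G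

/-! ## 2. Bad exponents -/

/-- `rr n x` is very close to a fraction with denominator between `b ^ h` and `b ^ (16 h)` -/
def Bad (n w h x : ℕ) : Prop := ∃ (p : ℤ) (q : ℕ), (n + 1) ^ h ≤ q ∧ q < (n + 1) ^ (16 * h) ∧
  |rr n x - p / q| < 2 / ((n : ℝ) + 1) ^ (w * h)

/-- (CLUST) (BAS) `ξ = x' - x`, `η = Y n x' - Y n x ≤ 2 ξ + 1 ≤ 3 ξ`,
`rr n x' / rr n x = b ^ (ξ + η) / (n ^ ξ * (n + 2) ^ η)`;
`|b ^ (ξ + η) * q' * p - n ^ ξ * (n + 2) ^ η * q * p'| ≤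
12 * b ^ (- w h) * q * q' * n ^ ξ * (n + 2) ^ η < 1`, so it is `0`, so `b ^ (ξ + η)` divides
`q * p' ≤ 3 * q * q'` -/
def ST_CLUST : Prop := ∀ n K w h : ℕ, 12 ≤ n → 1 ≤ h → 8 * K + 34 ≤ w → ∀ x x' : ℕ, x < x' →
  x' ≤ x + K * h → Bad n w h x → Bad n w h x' → x' < x + 33 * h

/-- (CNT) (MULT) different `x` have different `p / q`; `1 ≤ q < Q`, `0 < p < 3 Q`,
`Q = b ^ (16 h)` -/
def ST_CNT : Prop := ∀ n : ℕ, 10 ^ 6 ≤ n → ∃ C : ℕ, 1 ≤ C ∧ ∀ (w h D s : ℕ) (U : Finset ℕ),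
  1 ≤ w → 1 ≤ h → 1 ≤ D → 4 * (C * D) ^ C ≤ (n + 1) ^ (w * h) →
  (∀ x ∈ U, s ≤ x ∧ x < s + D ∧ Bad n w h x) → U.card ≤ 3 * (n + 1) ^ (32 * h)

/-- (TREE) combinatorics. By induction on `J`: for every `X` there is a finite set `𝒳` of `14 ^ J`
elements of `T` in `[X, X + M * 16 ^ J)`, not in `E i` for `1 ≤ i ≤ J`, which is covered by
`14 ^ (J - t)` intervals of length `M * 16 ^ t` for every `t ≤ J`: `E J` meets at most 2 of the 16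
subintervals of length `M * 16 ^ (J - 1)`. Then count the elements of `𝒳` in `F j` -/
def ST_TREE : Prop := ∀ (M J m : ℕ) (T : Set ℕ) (E F : ℕ → Set ℕ) (t N : ℕ → ℕ), 1 ≤ M →
  (∀ X, ∃ x ∈ T, X ≤ x ∧ x < X + M) →
  (∀ i, 1 ≤ i → i ≤ J → ∀ x ∈ E i, ∀ x' ∈ E i, x < x' → x' < x + M * 16 ^ i →
    x' < x + M * 16 ^ (i - 1)) →
  (∀ j < m, t j ≤ J) →
  (∀ j < m, ∀ (s : ℕ) (U : Finset ℕ), (∀ x ∈ U, x ∈ T ∧ x ∈ F j ∧ s ≤ x ∧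
    x < s + M * 16 ^ t j) → U.card ≤ N j) →
  ∑ j ∈ range m, N j * 14 ^ (J - t j) < 14 ^ J →
  ∀ X, ∃ x ∈ T, X ≤ x ∧ x < X + M * 16 ^ J ∧ (∀ i, 1 ≤ i → i ≤ J → x ∉ E i) ∧
    ∀ j < m, x ∉ F j

/-- (STEP) (DENS, CLUST, CNT, TREE, BAS). `b = n + 1`, `G = b ^ (5 h)`, `C` from DENS and CNT.
`j₁ = C * (C + 5 * b * h)`, so `(C * G) ^ C ≤ 16 ^ j₁`. `M = 528 * h * 16 ^ j₁`, `K = 528`.
`T` = the `x` with `rr n x` in the target, `E i` = bad for the scale `h * 16 ^ (j₁ + i)`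
(CLUST: `M * 16 ^ i = 528 * (h * 16 ^ (j₁ + i))`, `33 * (h * 16 ^ (j₁ + i)) = M * 16 ^ (i - 1)`),
`F j` = bad for `h * 16 ^ j`, `j ≤ j₁`, `m = j₁ + 1`, `N j = 3 * b ^ (32 * h * 16 ^ j)`,
`t j = 32 * b * h * 16 ^ j + j + 3`, so `N j * 2 ^ (j + 1) ≤ 14 ^ t j`, and
`4 * (C * M * 16 ^ t j) ^ C ≤ b ^ (w * h * 16 ^ j)` for large `w`. `J = t j₁ + X`.
`dn n x ≤ b ^ (8 * x + 2)`, `x < X + M * 16 ^ J ≤ 2 * M * 16 ^ J`, so `q < b ^ (16 * h * 16 ^ (j₁ + J))`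
if `q ^ (w + 1) ≤ dn n x ^ 2` (`w` large) -/
def ST_STEP : Prop := ∀ n : ℕ, 10 ^ 6 ≤ n → ∃ w : ℕ, 20 ≤ w ∧ ∀ (h X : ℕ) (s : ℝ), 1 ≤ h →
  1 ≤ s → s + 1 / ((n : ℝ) + 1) ^ (5 * h) ≤ ((n : ℝ) + 2) / (n + 1) →
  ∃ x, X ≤ x ∧ s < rr n x ∧ rr n x < s + 1 / ((n : ℝ) + 1) ^ (5 * h) ∧
    ∀ (p : ℤ) (q : ℕ), (n + 1) ^ h ≤ q → q ^ (w + 1) ≤ dn n x ^ 2 →
      2 / (q : ℝ) ^ w ≤ |rr n x - p / q|

/-! ## 3. The number -/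

/-- (LIM) (STEP, BAS) `x 0 = 2`, `R = dn n (x k)`, `h = Nat.log b R` (`b ^ h ≤ R < b ^ (h + 1)`),
`s = rr n (x k) + 1 / (8 R ^ 2)`; `1 / b ^ (5 h) ≤ 1 / (8 R ^ 2)`,
`(n + 2) / (n + 1) - rr n (x k) ≥ 1 / (b R) ≥ 1 / (4 R ^ 2)`; `ξ` = the supremum,
`1 / (8 R ^ 2) ≤ ξ - rr n (x k) ≤ 1 / (3 R ^ 2)`. For `q ≥ q₀` take `k` with
`dn n (x k) ^ 2 < q ^ (w + 1) ≤ dn n (x (k + 1)) ^ 2`. If `q ≤ R` then
`|ξ - p / q| ≥ 1 / (q R) - 1 / (3 R ^ 2)` (or `≥ 1 / (8 R ^ 2)` if `p / q = rr n (x k)`); if `q ≥ R`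
then `|ξ - p / q| ≥ 2 / q ^ w - 1 / (3 dn n (x (k + 1)) ^ 2) ≥ 1 / q ^ w` -/
def ST_LIM : Prop := ∀ n : ℕ, 10 ^ 6 ≤ n → ∃ (ξ : ℝ) (x : ℕ → ℕ), StrictMono x ∧
  (∀ k, rr n (x k) < ξ ∧ ξ - rr n (x k) < 1 / (2 * (dn n (x k) : ℝ) ^ 2)) ∧
  (∃ w q₀ : ℕ, ∀ (p : ℤ) (q : ℕ), q₀ ≤ q → 1 / (q : ℝ) ^ w ≤ |ξ - p / q|)

/-- (CF) good approximations are convergents (`Real.exists_convs_eq_rat`); the numerators and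
denominators `nums n`, `dens n` are coprime integers (determinant) -/
def ST_CF : Prop := ∀ (ξ : ℝ) (r : ℕ → ℚ), Irrational ξ → Function.Injective r →
  (∀ k, |ξ - r k| < 1 / (2 * ((r k).den : ℝ) ^ 2)) → ∀ N : ℕ, ∃ k, ∃ n ≥ N,
    ((r k).num : ℝ) = (GenContFract.of ξ).nums n ∧ ((r k).den : ℝ) = (GenContFract.of ξ).dens n

/-- (FIN) the frozen statement S17870 (LIM, CF, BAS with `n = 10 ^ 6`): `ξ` is irrational and not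
Liouville by the last item of LIM (`Liouville.frequently_exists_num`) -/
def ST_FIN : Prop := ¬ (∀ ξ : ℝ, Irrational ξ →
      (∃ B : ℕ, ∀ N : ℕ, ∃ n ≥ N, ∃ a b : ℤ,
        (a : ℝ) = (GenContFract.of ξ).nums n ∧
        (b : ℝ) = (GenContFract.of ξ).dens n ∧
        ∀ p : ℕ, p.Prime → (p ∣ a.natAbs ∨ p ∣ b.natAbs) → p ≤ B) →
      Liouville ξ)

end Pool.Agent.Helper27.EM
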